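import Mathlib
import Pool.Agent.H329.RSeq

namespace Pool.Agent.Results.MP_d3366a_al.RSequencing

open H329.RSeq

/-- cosets: is the `k`-th element in the coset of `b`? -/
def S (q k : ℕ) : Bool :=
  if k < 8 * q - 1 then decide (k % 2 = 0)
  else if k = 8 * q - 1 then true
  else if k < 12 * q then false else true

/-- positions (exponents of `a`) -/
def P (q k : ℕ) : ℤ :=
  if k < 8 * q - 1 then (if k % 2 = 0 then 4 * q + 1 + (k / 2 : ℕ) else 4 * q - (k / 2 : ℕ))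
  else if k = 8 * q - 1 then 4 * q
  else if k < 10 * q then
    (if k % 2 = 0 then 4 * q + 1 + ((k - 8 * q) / 2 : ℕ) else 8 * q - 1 - ((k - 8 * q) / 2 : ℕ))
  else if k < 12 * q - 1 then
    (if k % 2 = 0 then 7 * q - 1 - ((k - 10 * q) / 2 : ℕ) else 5 * q + 1 + ((k - 10 * q) / 2 : ℕ))
  else if k = 12 * q - 1 then 1
  else if k < 14 * q then
    (if k % 2 = 0 then 8 * q + 1 + ((k - 12 * q) / 2 : ℕ)
      else 12 * q - 1 - ((k - 12 * q) / 2 : ℕ))
  else
    (if k % 2 = 0 then 11 * q - 1 - ((k - 14 * q) / 2 : ℕ)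
      else 9 * q + 1 + ((k - 14 * q) / 2 : ℕ))

/-- exponents of the quotients, in `[0, 8 q)` -/
def C (q k : ℕ) : ℤ :=
  (rho ((4 * q - 1 : ℕ) : ℤ) (S q k) * (P q ((k + 1) % (16 * q - 1)) - P q k)) % (8 * q)

/-- inverse of the positions -/
def K (q : ℕ) (s : Bool) (p : ℤ) : ℤ :=
  if s then
    (if p = 4 * q then 8 * q - 1
    else if p ≤ 8 * q then 2 * (p - 4 * q - 1)
    else if p ≤ 9 * q then 12 * q + 2 * (p - 8 * q - 1)
    else if p ≤ 10 * q - 1 then 14 * q + 2 * (p - 9 * q - 1) + 1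
    else if p ≤ 11 * q - 1 then 14 * q + 2 * (11 * q - 1 - p)
    else 12 * q + 2 * (12 * q - 1 - p) + 1)
  else
    (if p = 1 then 12 * q - 1
    else if p ≤ 4 * q then 2 * (4 * q - p) + 1
    else if p ≤ 5 * q then 8 * q + 2 * (p - 4 * q - 1)
    else if p ≤ 6 * q - 1 then 10 * q + 2 * (p - 5 * q - 1) + 1
    else if p ≤ 7 * q - 1 then 10 * q + 2 * (7 * q - 1 - p)
    else 8 * q + 2 * (8 * q - 1 - p) + 1)

/-- inverse of the quotients -/
def KC (q : ℕ) (x : Bool) (c : ℤ) : ℤ :=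
  if x then
    (if c = 0 then 12 * q - 1
    else if c % 2 = 0 then c - 1
    else if c = 4 * q - 1 then 8 * q - 1
    else if 4 * q < c then c - 1 - 4 * q
    else c - 1 + 4 * q)
  else if c % 2 = 0 then
    (if c = 4 * q then 8 * q - 2
    else if c < 2 * q then 14 * q + (2 * q - 2 - c)
    else if c < 4 * q then 8 * q + (4 * q - 2 - c)
    else if c < 6 * q + 1 then 12 * q + (c - 4 * q - 2)
    else 10 * q + (c - 6 * q - 2))
  else
    (if c < 2 * q - 1 then 10 * q + (2 * q - 2 - c)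
    else if c = 2 * q - 1 then 16 * q - 2
    else if c = 2 * q + 1 then 12 * q - 2
    else if c < 4 * q then 14 * q + (c - 2 * q - 2)
    else if c = 4 * q + 1 then 14 * q - 1
    else if c < 6 * q then 8 * q + (c - 4 * q - 2)
    else if c = 8 * q - 1 then 10 * q - 1
    else 12 * q + (8 * q - 2 - c))

lemma S_true (q k : ℕ) (h : k < 8 * q - 1 ∧ k % 2 = 0 ∨ k = 8 * q - 1 ∨ 12 * q ≤ k ∧ 8 * q - 1 < k) : S q k = true := by
  unfold S; split_ifs <;> first | rfl | (exfalso; omega) | (simp; omega)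

lemma S_false (q k : ℕ) (h : k < 8 * q - 1 ∧ k % 2 = 1 ∨ 8 * q ≤ k ∧ k < 12 * q ∧ 8 * q - 1 < k) : S q k = false := by
  unfold S; split_ifs <;> first | rfl | (exfalso; omega) | (simp; omega)

lemma P0 (q k j : ℕ) (h : k = 2 * j) (h' : j < 4 * q) (hq : 0 < q) : P q k = 4 * q + 1 + j := by
  unfold P; split_ifs <;> omega

lemma P1 (q k j : ℕ) (h : k = 2 * j + 1) (h' : j < 4 * q - 1) (hq : 0 < q) : P q k = 4 * q - j := by
  unfold P; split_ifs <;> omega

lemma P2 (q k j : ℕ) (h : k = 8 * q - 1 + 0 * j) (h' : j = 0) (hq : 0 < q) : P q k = 4 * q + 0 * j := by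
  unfold P; split_ifs <;> omega

lemma P3 (q k j : ℕ) (h : k = 8 * q + 2 * j) (h' : j < q) (hq : 0 < q) : P q k = 4 * q + 1 + j := by
  unfold P; split_ifs <;> omega

lemma P4 (q k j : ℕ) (h : k = 8 * q + 2 * j + 1) (h' : j < q) (hq : 0 < q) : P q k = 8 * q - 1 - j := by
  unfold P; split_ifs <;> omega

lemma P5 (q k j : ℕ) (h : k = 10 * q + 2 * j) (h' : j < q) (hq : 0 < q) : P q k = 7 * q - 1 - j := by
  unfold P; split_ifs <;> omega

lemma P6 (q k j : ℕ) (h : k = 10 * q + 2 * j + 1) (h' : j + 1 < q) (hq : 0 < q) : P q k = 5 * q + 1 + j := by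
  unfold P; split_ifs <;> omega

lemma P7 (q k j : ℕ) (h : k = 12 * q - 1 + 0 * j) (h' : j = 0) (hq : 0 < q) : P q k = 1 + 0 * j := by
  unfold P; split_ifs <;> omega

lemma P8 (q k j : ℕ) (h : k = 12 * q + 2 * j) (h' : j < q) (hq : 0 < q) : P q k = 8 * q + 1 + j := by
  unfold P; split_ifs <;> omega

lemma P9 (q k j : ℕ) (h : k = 12 * q + 2 * j + 1) (h' : j < q) (hq : 0 < q) : P q k = 12 * q - 1 - j := by
  unfold P; split_ifs <;> omega

lemma P10 (q k j : ℕ) (h : k = 14 * q + 2 * j) (h' : j < q) (hq : 0 < q) : P q k = 11 * q - 1 - j := by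
  unfold P; split_ifs <;> omega

lemma P11 (q k j : ℕ) (h : k = 14 * q + 2 * j + 1) (h' : j + 1 < q) (hq : 0 < q) : P q k = 9 * q + 1 + j := by
  unfold P; split_ifs <;> omega

lemma cases_all (q k k' : ℕ) (hq : 0 < q) (hk : k < 16 * q - 1)
    (hk' : k' = k + 1 ∧ k + 1 < 16 * q - 1 ∨ k' = 0 ∧ k + 1 = 16 * q - 1) :
    (∃ j : ℕ, k = 2 * j ∧ (j < 2 * q) ∧ S q k = true ∧ S q k' = false ∧ P q k = 4 * q + 1 + ((j : ℕ) : ℤ) ∧
      P q k' = 4 * q - ((j : ℕ) : ℤ)) ∨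
    (∃ j : ℕ, k = 2 * j ∧ (2 * q ≤ j ∧ j < 4 * q - 1) ∧ S q k = true ∧ S q k' = false ∧ P q k = 4 * q + 1 + ((j : ℕ) : ℤ) ∧
      P q k' = 4 * q - ((j : ℕ) : ℤ)) ∨
    (∃ j : ℕ, k = 2 * j + 1 ∧ (j < 4 * q - 1) ∧ S q k = false ∧ S q k' = true ∧ P q k = 4 * q - ((j : ℕ) : ℤ) ∧
      P q k' = 4 * q + 1 + ((j + 1 : ℕ) : ℤ)) ∨
    (∃ j : ℕ, k = 2 * j ∧ (j + 1 = 4 * q) ∧ S q k = true ∧ S q k' = true ∧ P q k = 4 * q + 1 + ((j : ℕ) : ℤ) ∧
      P q k' = 4 * q + 0 * ((0 : ℕ) : ℤ)) ∨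
    (∃ j : ℕ, k = 8 * q - 1 + 0 * j ∧ (j = 0) ∧ S q k = true ∧ S q k' = false ∧ P q k = 4 * q + 0 * ((0 : ℕ) : ℤ) ∧
      P q k' = 4 * q + 1 + ((0 : ℕ) : ℤ)) ∨
    (∃ j : ℕ, k = 8 * q + 2 * j ∧ (j < q) ∧ S q k = false ∧ S q k' = false ∧ P q k = 4 * q + 1 + ((j : ℕ) : ℤ) ∧
      P q k' = 8 * q - 1 - ((j : ℕ) : ℤ)) ∨
    (∃ j : ℕ, k = 8 * q + 2 * j + 1 ∧ (j + 1 < q) ∧ S q k = false ∧ S q k' = false ∧ P q k = 8 * q - 1 - ((j : ℕ) : ℤ) ∧
      P q k' = 4 * q + 1 + ((j + 1 : ℕ) : ℤ)) ∨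
    (∃ j : ℕ, k = 8 * q + 2 * j + 1 ∧ (j + 1 = q) ∧ S q k = false ∧ S q k' = false ∧ P q k = 8 * q - 1 - ((j : ℕ) : ℤ) ∧
      P q k' = 7 * q - 1 - ((0 : ℕ) : ℤ)) ∨
    (∃ j : ℕ, k = 10 * q + 2 * j ∧ (j + 1 < q) ∧ S q k = false ∧ S q k' = false ∧ P q k = 7 * q - 1 - ((j : ℕ) : ℤ) ∧
      P q k' = 5 * q + 1 + ((j : ℕ) : ℤ)) ∨
    (∃ j : ℕ, k = 10 * q + 2 * j + 1 ∧ (j + 1 < q) ∧ S q k = false ∧ S q k' = false ∧ P q k = 5 * q + 1 + ((j : ℕ) : ℤ) ∧
      P q k' = 7 * q - 1 - ((j + 1 : ℕ) : ℤ)) ∨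
    (∃ j : ℕ, k = 10 * q + 2 * j ∧ (j + 1 = q) ∧ S q k = false ∧ S q k' = false ∧ P q k = 7 * q - 1 - ((j : ℕ) : ℤ) ∧
      P q k' = 1 + 0 * ((0 : ℕ) : ℤ)) ∨
    (∃ j : ℕ, k = 12 * q - 1 + 0 * j ∧ (j = 0) ∧ S q k = false ∧ S q k' = true ∧ P q k = 1 + 0 * ((0 : ℕ) : ℤ) ∧
      P q k' = 8 * q + 1 + ((0 : ℕ) : ℤ)) ∨
    (∃ j : ℕ, k = 12 * q + 2 * j ∧ (j < q) ∧ S q k = true ∧ S q k' = true ∧ P q k = 8 * q + 1 + ((j : ℕ) : ℤ) ∧
      P q k' = 12 * q - 1 - ((j : ℕ) : ℤ)) ∨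
    (∃ j : ℕ, k = 12 * q + 2 * j + 1 ∧ (j + 1 < q) ∧ S q k = true ∧ S q k' = true ∧ P q k = 12 * q - 1 - ((j : ℕ) : ℤ) ∧
      P q k' = 8 * q + 1 + ((j + 1 : ℕ) : ℤ)) ∨
    (∃ j : ℕ, k = 12 * q + 2 * j + 1 ∧ (j + 1 = q) ∧ S q k = true ∧ S q k' = true ∧ P q k = 12 * q - 1 - ((j : ℕ) : ℤ) ∧
      P q k' = 11 * q - 1 - ((0 : ℕ) : ℤ)) ∨
    (∃ j : ℕ, k = 14 * q + 2 * j ∧ (j + 1 < q) ∧ S q k = true ∧ S q k' = true ∧ P q k = 11 * q - 1 - ((j : ℕ) : ℤ) ∧
      P q k' = 9 * q + 1 + ((j : ℕ) : ℤ)) ∨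
    (∃ j : ℕ, k = 14 * q + 2 * j + 1 ∧ (j + 1 < q) ∧ S q k = true ∧ S q k' = true ∧ P q k = 9 * q + 1 + ((j : ℕ) : ℤ) ∧
      P q k' = 11 * q - 1 - ((j + 1 : ℕ) : ℤ)) ∨
    (∃ j : ℕ, k = 14 * q + 2 * j ∧ (j + 1 = q) ∧ S q k = true ∧ S q k' = true ∧ P q k = 11 * q - 1 - ((j : ℕ) : ℤ) ∧
      P q k' = 4 * q + 1 + ((0 : ℕ) : ℤ)) := by
  rcases Nat.even_or_odd' k with ⟨i, hi | hi⟩
  · by_cases c0 : i < 2 * q
    · obtain ⟨j, hj⟩ : ∃ j : ℕ, j = i := ⟨_, rfl⟩
      exact Or.inl ⟨j, by omega, by omega,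
        S_true q k (by omega), S_false q k' (by omega),
        P0 q k (j) (by omega) (by omega) hq,
        P1 q k' (j) (by omega) (by omega) hq⟩
    by_cases c1 : i < 4 * q - 1
    · obtain ⟨j, hj⟩ : ∃ j : ℕ, j = i := ⟨_, rfl⟩
      exact Or.inr (Or.inl ⟨j, by omega, by omega,
        S_true q k (by omega), S_false q k' (by omega),
        P0 q k (j) (by omega) (by omega) hq,
        P1 q k' (j) (by omega) (by omega) hq⟩)
    by_cases c2 : i = 4 * q - 1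
    · obtain ⟨j, hj⟩ : ∃ j : ℕ, j = i := ⟨_, rfl⟩
      exact Or.inr (Or.inr (Or.inr (Or.inl ⟨j, by omega, by omega,
        S_true q k (by omega), S_true q k' (by omega),
        P0 q k (j) (by omega) (by omega) hq,
        P2 q k' (0) (by omega) (by omega) hq⟩)))
    by_cases c3 : i < 5 * q
    · obtain ⟨j, hj⟩ : ∃ j : ℕ, j = i - 4 * q := ⟨_, rfl⟩
      exact Or.inr (Or.inr (Or.inr (Or.inr (Or.inr (Or.inl ⟨j, by omega, by omega,
        S_false q k (by omega), S_false q k' (by omega),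
        P3 q k (j) (by omega) (by omega) hq,
        P4 q k' (j) (by omega) (by omega) hq⟩)))))
    by_cases c4 : i < 6 * q - 1
    · obtain ⟨j, hj⟩ : ∃ j : ℕ, j = i - 5 * q := ⟨_, rfl⟩
      exact Or.inr (Or.inr (Or.inr (Or.inr (Or.inr (Or.inr (Or.inr (Or.inr (Or.inl ⟨j, by omega, by omega,
        S_false q k (by omega), S_false q k' (by omega),
        P5 q k (j) (by omega) (by omega) hq,
        P6 q k' (j) (by omega) (by omega) hq⟩))))))))
    by_cases c5 : i = 6 * q - 1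
    · obtain ⟨j, hj⟩ : ∃ j : ℕ, j = i - 5 * q := ⟨_, rfl⟩
      exact Or.inr (Or.inr (Or.inr (Or.inr (Or.inr (Or.inr (Or.inr (Or.inr (Or.inr (Or.inr (Or.inl ⟨j, by omega, by omega,
        S_false q k (by omega), S_false q k' (by omega),
        P5 q k (j) (by omega) (by omega) hq,
        P7 q k' (0) (by omega) (by omega) hq⟩))))))))))
    by_cases c6 : i < 7 * q
    · obtain ⟨j, hj⟩ : ∃ j : ℕ, j = i - 6 * q := ⟨_, rfl⟩
      exact Or.inr (Or.inr (Or.inr (Or.inr (Or.inr (Or.inr (Or.inr (Or.inr (Or.inr (Or.inr (Or.inr (Or.inr (Or.inl ⟨j, by omega, by omega,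
        S_true q k (by omega), S_true q k' (by omega),
        P8 q k (j) (by omega) (by omega) hq,
        P9 q k' (j) (by omega) (by omega) hq⟩))))))))))))
    by_cases c7 : i < 8 * q - 1
    · obtain ⟨j, hj⟩ : ∃ j : ℕ, j = i - 7 * q := ⟨_, rfl⟩
      exact Or.inr (Or.inr (Or.inr (Or.inr (Or.inr (Or.inr (Or.inr (Or.inr (Or.inr (Or.inr (Or.inr (Or.inr (Or.inr (Or.inr (Or.inr (Or.inl ⟨j, by omega, by omega,
        S_true q k (by omega), S_true q k' (by omega),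
        P10 q k (j) (by omega) (by omega) hq,
        P11 q k' (j) (by omega) (by omega) hq⟩)))))))))))))))
    obtain ⟨j, hj⟩ : ∃ j : ℕ, j = i - 7 * q := ⟨_, rfl⟩
    exact Or.inr (Or.inr (Or.inr (Or.inr (Or.inr (Or.inr (Or.inr (Or.inr (Or.inr (Or.inr (Or.inr (Or.inr (Or.inr (Or.inr (Or.inr (Or.inr (Or.inr (⟨j, by omega, by omega,
      S_true q k (by omega), S_true q k' (by omega),
      P10 q k (j) (by omega) (by omega) hq,
      P0 q k' (0) (by omega) (by omega) hq⟩)))))))))))))))))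
  · by_cases c0 : i < 4 * q - 1
    · obtain ⟨j, hj⟩ : ∃ j : ℕ, j = i := ⟨_, rfl⟩
      exact Or.inr (Or.inr (Or.inl ⟨j, by omega, by omega,
        S_false q k (by omega), S_true q k' (by omega),
        P1 q k (j) (by omega) (by omega) hq,
        P0 q k' (j + 1) (by omega) (by omega) hq⟩))
    by_cases c1 : i = 4 * q - 1
    · obtain ⟨j, hj⟩ : ∃ j : ℕ, j = 0 := ⟨_, rfl⟩
      exact Or.inr (Or.inr (Or.inr (Or.inr (Or.inl ⟨j, by omega, by omega,
        S_true q k (by omega), S_false q k' (by omega),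
        P2 q k (0) (by omega) (by omega) hq,
        P3 q k' (0) (by omega) (by omega) hq⟩))))
    by_cases c2 : i < 5 * q - 1
    · obtain ⟨j, hj⟩ : ∃ j : ℕ, j = i - 4 * q := ⟨_, rfl⟩
      exact Or.inr (Or.inr (Or.inr (Or.inr (Or.inr (Or.inr (Or.inl ⟨j, by omega, by omega,
        S_false q k (by omega), S_false q k' (by omega),
        P4 q k (j) (by omega) (by omega) hq,
        P3 q k' (j + 1) (by omega) (by omega) hq⟩))))))
    by_cases c3 : i = 5 * q - 1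
    · obtain ⟨j, hj⟩ : ∃ j : ℕ, j = i - 4 * q := ⟨_, rfl⟩
      exact Or.inr (Or.inr (Or.inr (Or.inr (Or.inr (Or.inr (Or.inr (Or.inl ⟨j, by omega, by omega,
        S_false q k (by omega), S_false q k' (by omega),
        P4 q k (j) (by omega) (by omega) hq,
        P5 q k' (0) (by omega) (by omega) hq⟩)))))))
    by_cases c4 : i < 6 * q - 1
    · obtain ⟨j, hj⟩ : ∃ j : ℕ, j = i - 5 * q := ⟨_, rfl⟩
      exact Or.inr (Or.inr (Or.inr (Or.inr (Or.inr (Or.inr (Or.inr (Or.inr (Or.inr (Or.inl ⟨j, by omega, by omega,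
        S_false q k (by omega), S_false q k' (by omega),
        P6 q k (j) (by omega) (by omega) hq,
        P5 q k' (j + 1) (by omega) (by omega) hq⟩)))))))))
    by_cases c5 : i = 6 * q - 1
    · obtain ⟨j, hj⟩ : ∃ j : ℕ, j = 0 := ⟨_, rfl⟩
      exact Or.inr (Or.inr (Or.inr (Or.inr (Or.inr (Or.inr (Or.inr (Or.inr (Or.inr (Or.inr (Or.inr (Or.inl ⟨j, by omega, by omega,
        S_false q k (by omega), S_true q k' (by omega),
        P7 q k (0) (by omega) (by omega) hq,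
        P8 q k' (0) (by omega) (by omega) hq⟩)))))))))))
    by_cases c6 : i < 7 * q - 1
    · obtain ⟨j, hj⟩ : ∃ j : ℕ, j = i - 6 * q := ⟨_, rfl⟩
      exact Or.inr (Or.inr (Or.inr (Or.inr (Or.inr (Or.inr (Or.inr (Or.inr (Or.inr (Or.inr (Or.inr (Or.inr (Or.inr (Or.inl ⟨j, by omega, by omega,
        S_true q k (by omega), S_true q k' (by omega),
        P9 q k (j) (by omega) (by omega) hq,
        P8 q k' (j + 1) (by omega) (by omega) hq⟩)))))))))))))
    by_cases c7 : i = 7 * q - 1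
    · obtain ⟨j, hj⟩ : ∃ j : ℕ, j = i - 6 * q := ⟨_, rfl⟩
      exact Or.inr (Or.inr (Or.inr (Or.inr (Or.inr (Or.inr (Or.inr (Or.inr (Or.inr (Or.inr (Or.inr (Or.inr (Or.inr (Or.inr (Or.inl ⟨j, by omega, by omega,
        S_true q k (by omega), S_true q k' (by omega),
        P9 q k (j) (by omega) (by omega) hq,
        P10 q k' (0) (by omega) (by omega) hq⟩))))))))))))))
    obtain ⟨j, hj⟩ : ∃ j : ℕ, j = i - 7 * q := ⟨_, rfl⟩
    exact Or.inr (Or.inr (Or.inr (Or.inr (Or.inr (Or.inr (Or.inr (Or.inr (Or.inr (Or.inr (Or.inr (Or.inr (Or.inr (Or.inr (Or.inr (Or.inr (Or.inl ⟨j, by omega, by omega,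
      S_true q k (by omega), S_true q k' (by omega),
      P11 q k (j) (by omega) (by omega) hq,
      P10 q k' (j + 1) (by omega) (by omega) hq⟩))))))))))))))))

lemma K_spec (q k k' : ℕ) (hq : 0 < q) (hk : k < 16 * q - 1)
    (hk' : k' = k + 1 ∧ k + 1 < 16 * q - 1 ∨ k' = 0 ∧ k + 1 = 16 * q - 1) :
    K q (S q k) (P q k) = k := by
  rcases cases_all q k k' hq hk hk' with
      ⟨j, hj, hr, hS, hS', hP, hP'⟩
      | ⟨j, hj, hr, hS, hS', hP, hP'⟩
      | ⟨j, hj, hr, hS, hS', hP, hP'⟩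
      | ⟨j, hj, hr, hS, hS', hP, hP'⟩
      | ⟨j, hj, hr, hS, hS', hP, hP'⟩
      | ⟨j, hj, hr, hS, hS', hP, hP'⟩
      | ⟨j, hj, hr, hS, hS', hP, hP'⟩
      | ⟨j, hj, hr, hS, hS', hP, hP'⟩
      | ⟨j, hj, hr, hS, hS', hP, hP'⟩
      | ⟨j, hj, hr, hS, hS', hP, hP'⟩
      | ⟨j, hj, hr, hS, hS', hP, hP'⟩
      | ⟨j, hj, hr, hS, hS', hP, hP'⟩
      | ⟨j, hj, hr, hS, hS', hP, hP'⟩
      | ⟨j, hj, hr, hS, hS', hP, hP'⟩
      | ⟨j, hj, hr, hS, hS', hP, hP'⟩
      | ⟨j, hj, hr, hS, hS', hP, hP'⟩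
      | ⟨j, hj, hr, hS, hS', hP, hP'⟩
      | ⟨j, hj, hr, hS, hS', hP, hP'⟩ <;>
    (rw [hS, hP]; simp only [K, if_true, if_false, Bool.false_eq_true]
     first | omega | (split_ifs <;> omega))

lemma bd (q k k' : ℕ) (hq : 0 < q) (hk : k < 16 * q - 1)
    (hk' : k' = k + 1 ∧ k + 1 < 16 * q - 1 ∨ k' = 0 ∧ k + 1 = 16 * q - 1) :
    (if S q k then (4 * q : ℤ) else 0) ≤ P q k ∧
      P q k < (if S q k then (4 * q : ℤ) else 0) + 8 * q ∧
      (S q k = false → P q k ≠ 0) := by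
  rcases cases_all q k k' hq hk hk' with
      ⟨j, hj, hr, hS, hS', hP, hP'⟩
      | ⟨j, hj, hr, hS, hS', hP, hP'⟩
      | ⟨j, hj, hr, hS, hS', hP, hP'⟩
      | ⟨j, hj, hr, hS, hS', hP, hP'⟩
      | ⟨j, hj, hr, hS, hS', hP, hP'⟩
      | ⟨j, hj, hr, hS, hS', hP, hP'⟩
      | ⟨j, hj, hr, hS, hS', hP, hP'⟩
      | ⟨j, hj, hr, hS, hS', hP, hP'⟩
      | ⟨j, hj, hr, hS, hS', hP, hP'⟩
      | ⟨j, hj, hr, hS, hS', hP, hP'⟩
      | ⟨j, hj, hr, hS, hS', hP, hP'⟩
      | ⟨j, hj, hr, hS, hS', hP, hP'⟩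
      | ⟨j, hj, hr, hS, hS', hP, hP'⟩
      | ⟨j, hj, hr, hS, hS', hP, hP'⟩
      | ⟨j, hj, hr, hS, hS', hP, hP'⟩
      | ⟨j, hj, hr, hS, hS', hP, hP'⟩
      | ⟨j, hj, hr, hS, hS', hP, hP'⟩
      | ⟨j, hj, hr, hS, hS', hP, hP'⟩ <;>
    (rw [hS, hP]
     simp only [if_true, if_false, Bool.false_eq_true, Bool.true_eq_false, true_implies,
       false_implies, and_true, reduceCtorEq]
     omega)

lemma emod_val (q : ℕ) (x c w : ℤ) (h : x = c + 8 * q * w) (h1 : 0 ≤ c) (h2 : c < 8 * q) :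
    x % (8 * q) = c := by
  rw [h, Int.add_mul_emod_self_left]
  exact Int.emod_eq_of_lt h1 h2

lemma KC_spec (q k k' : ℕ) (hq : 0 < q) (hk : k < 16 * q - 1)
    (hk' : k' = k + 1 ∧ k + 1 < 16 * q - 1 ∨ k' = 0 ∧ k + 1 = 16 * q - 1) :
    KC q (xor (S q k) (S q k'))
      ((rho ((4 * q - 1 : ℕ) : ℤ) (S q k) * (P q k' - P q k)) % (8 * q)) = k := by
  have e : ((4 * q - 1 : ℕ) : ℤ) = 4 * q - 1 := by omega
  rw [e]
  rcases cases_all q k k' hq hk hk' with
      ⟨j, hj, hr, hS, hS', hP, hP'⟩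
      | ⟨j, hj, hr, hS, hS', hP, hP'⟩
      | ⟨j, hj, hr, hS, hS', hP, hP'⟩
      | ⟨j, hj, hr, hS, hS', hP, hP'⟩
      | ⟨j, hj, hr, hS, hS', hP, hP'⟩
      | ⟨j, hj, hr, hS, hS', hP, hP'⟩
      | ⟨j, hj, hr, hS, hS', hP, hP'⟩
      | ⟨j, hj, hr, hS, hS', hP, hP'⟩
      | ⟨j, hj, hr, hS, hS', hP, hP'⟩
      | ⟨j, hj, hr, hS, hS', hP, hP'⟩
      | ⟨j, hj, hr, hS, hS', hP, hP'⟩
      | ⟨j, hj, hr, hS, hS', hP, hP'⟩
      | ⟨j, hj, hr, hS, hS', hP, hP'⟩
      | ⟨j, hj, hr, hS, hS', hP, hP'⟩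
      | ⟨j, hj, hr, hS, hS', hP, hP'⟩
      | ⟨j, hj, hr, hS, hS', hP, hP'⟩
      | ⟨j, hj, hr, hS, hS', hP, hP'⟩
      | ⟨j, hj, hr, hS, hS', hP, hP'⟩ <;>
    rw [hS, hS', hP, hP'] <;>
    simp only [rho, if_true, if_false, Bool.false_eq_true, Bool.xor_true, Bool.xor_false,
       Bool.not_true, Bool.not_false]
  · rw [emod_val q _ (2 * j + 1 + 4 * q) (-(j : ℤ) - 1) (by push_cast; ring) (by omega) (by omega)]
    simp only [KC, if_true, if_false, Bool.false_eq_true]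
    first | omega | (split_ifs <;> omega)
  · rw [emod_val q _ (2 * j + 1 - 4 * q) (-(j : ℤ)) (by push_cast; ring) (by omega) (by omega)]
    simp only [KC, if_true, if_false, Bool.false_eq_true]
    first | omega | (split_ifs <;> omega)
  · rw [emod_val q _ (2 * j + 2) (0) (by push_cast; ring) (by omega) (by omega)]
    simp only [KC, if_true, if_false, Bool.false_eq_true]
    first | omega | (split_ifs <;> omega)
  · have hj2 : (j : ℤ) = 4 * q - 1 := by omega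
    rw [emod_val q _ (4 * q) (-(2 * q) + 0 * j) (by push_cast; rw [hj2]; ring) (by omega) (by omega)]
    simp only [KC, if_true, if_false, Bool.false_eq_true]
    first | omega | (split_ifs <;> omega)
  · rw [emod_val q _ (4 * q - 1) (0) (by push_cast; ring) (by omega) (by omega)]
    simp only [KC, if_true, if_false, Bool.false_eq_true]
    first | omega | (split_ifs <;> omega)
  · rw [emod_val q _ (4 * q - 2 - 2 * j) (0) (by push_cast; ring) (by omega) (by omega)]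
    simp only [KC, if_true, if_false, Bool.false_eq_true]
    first | omega | (split_ifs <;> omega)
  · rw [emod_val q _ (4 * q + 3 + 2 * j) (-1) (by push_cast; ring) (by omega) (by omega)]
    simp only [KC, if_true, if_false, Bool.false_eq_true]
    first | omega | (split_ifs <;> omega)
  · have hj2 : (j : ℤ) = q - 1 := by omega
    rw [emod_val q _ (8 * q - 1) (-1) (by push_cast; rw [hj2]; ring) (by omega) (by omega)]
    simp only [KC, if_true, if_false, Bool.false_eq_true]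
    first | omega | (split_ifs <;> omega)
  · rw [emod_val q _ (6 * q + 2 + 2 * j) (-1) (by push_cast; ring) (by omega) (by omega)]
    simp only [KC, if_true, if_false, Bool.false_eq_true]
    first | omega | (split_ifs <;> omega)
  · rw [emod_val q _ (2 * q - 3 - 2 * j) (0) (by push_cast; ring) (by omega) (by omega)]
    simp only [KC, if_true, if_false, Bool.false_eq_true]
    first | omega | (split_ifs <;> omega)
  · have hj2 : (j : ℤ) = q - 1 := by omega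
    rw [emod_val q _ (2 * q + 1) (-1) (by push_cast; rw [hj2]; ring) (by omega) (by omega)]
    simp only [KC, if_true, if_false, Bool.false_eq_true]
    first | omega | (split_ifs <;> omega)
  · rw [emod_val q _ (0) (1) (by push_cast; ring) (by omega) (by omega)]
    simp only [KC, if_true, if_false, Bool.false_eq_true]
    first | omega | (split_ifs <;> omega)
  · rw [emod_val q _ (4 * q + 2 + 2 * j) (2 * q - 2 - j) (by push_cast; ring) (by omega) (by omega)]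
    simp only [KC, if_true, if_false, Bool.false_eq_true]
    first | omega | (split_ifs <;> omega)
  · rw [emod_val q _ (8 * q - 3 - 2 * j) (-2 * q + 1 + j) (by push_cast; ring) (by omega) (by omega)]
    simp only [KC, if_true, if_false, Bool.false_eq_true]
    first | omega | (split_ifs <;> omega)
  · have hj2 : (j : ℤ) = q - 1 := by omega
    rw [emod_val q _ (4 * q + 1) (-1) (by push_cast; rw [hj2]; ring) (by omega) (by omega)]
    simp only [KC, if_true, if_false, Bool.false_eq_true]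
    first | omega | (split_ifs <;> omega)
  · rw [emod_val q _ (2 * q - 2 - 2 * j) (-q + 1 + j) (by push_cast; ring) (by omega) (by omega)]
    simp only [KC, if_true, if_false, Bool.false_eq_true]
    first | omega | (split_ifs <;> omega)
  · rw [emod_val q _ (2 * q + 3 + 2 * j) (q - 2 - j) (by push_cast; ring) (by omega) (by omega)]
    simp only [KC, if_true, if_false, Bool.false_eq_true]
    first | omega | (split_ifs <;> omega)
  · have hj2 : (j : ℤ) = q - 1 := by omega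
    rw [emod_val q _ (2 * q - 1) (-3 * q + 1) (by push_cast; rw [hj2]; ring) (by omega) (by omega)]
    simp only [KC, if_true, if_false, Bool.false_eq_true]
    first | omega | (split_ifs <;> omega)

theorem main (q : ℕ) (hq : 0 < q) :
    ∃ (N : ℕ) (g : ℕ → Grp (8 * q) (4 * q - 1)), IsRSequencing (Grp (8 * q) (4 * q - 1)) N g := by
  have e1 : 2 * (8 * q) - 1 = 16 * q - 1 := by omega
  have hz : ((8 * q : ℕ) : ZMod (8 * q)) = 0 := ZMod.natCast_self _
  have hk' : ∀ k < 16 * q - 1, ((k + 1) % (16 * q - 1) = k + 1 ∧ k + 1 < 16 * q - 1) ∨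
      ((k + 1) % (16 * q - 1) = 0 ∧ k + 1 = 16 * q - 1) := by
    intro k hk
    by_cases h : k + 1 < 16 * q - 1
    · left; exact ⟨Nat.mod_eq_of_lt h, h⟩
    · right
      have : k + 1 = 16 * q - 1 := by omega
      exact ⟨by rw [this]; exact Nat.mod_self _, this⟩
  apply rseq_criterion (8 * q) (4 * q - 1) (by omega) ?_ ?_ (P q) (S q) (C q) (0) false
    (fun s => if s then (4 * q : ℤ) else 0)
  · intro k hk
    rw [e1] at hk
    have := bd q k _ hq hk (hk' k hk)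
    push_cast
    exact ⟨this.1, this.2.1⟩
  · simp only [Bool.false_eq_true, if_true, if_false]; omega
  · intro k hk
    rw [e1] at hk
    exact (bd q k _ hq hk (hk' k hk)).2.2
  · intro k hk l hl h1 h2
    rw [e1] at hk hl
    have a := K_spec q k _ hq hk (hk' k hk)
    have b := K_spec q l _ hq hl (hk' l hl)
    rw [h1, h2, b] at a
    omega
  · intro k hk
    unfold C
    push_cast
    exact ⟨Int.emod_nonneg _ (by omega), Int.emod_lt_of_pos _ (by omega)⟩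
  · intro k hk
    rw [e1]
    unfold C
    push_cast
    exact Int.dvd_self_sub_emod
  · intro k hk l hl h1 h2
    rw [e1] at hk hl h1
    have a := KC_spec q k _ hq hk (hk' k hk)
    have b := KC_spec q l _ hq hl (hk' l hl)
    unfold C at h2
    rw [h1, h2, b] at a
    omega
  · -- r * r = 1
    have : (((4 * q - 1 : ℕ) : ℤ) : ZMod (8 * q)) * (((4 * q - 1 : ℕ) : ℤ) : ZMod (8 * q)) = 1 := by
      have e : ((4 * q - 1 : ℕ) : ℤ) = 4 * q - 1 := by omega
      rw [e]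
      have h1 : ((4 * q - 1 : ℤ) : ZMod (8 * q)) * ((4 * q - 1 : ℤ) : ZMod (8 * q)) - 1 =
          ((8 * q : ℕ) : ZMod (8 * q)) * (2 * q - 1) := by
        push_cast; ring
      rw [hz, zero_mul, sub_eq_zero] at h1
      exact h1
    simpa using this
  · intro h
    have h2 : (((4 * q - 1 : ℕ) : ℤ) : ZMod (8 * q)) = ((1 : ℤ) : ZMod (8 * q)) := by
      simpa using h
    rw [ZMod.intCast_eq_intCast_iff_dvd_sub] at h2
    obtain ⟨c, hc⟩ := h2
    have e : ((4 * q - 1 : ℕ) : ℤ) = 4 * q - 1 := by omega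
    rw [e] at hc
    push_cast at hc
    have h3 : (4 : ℤ) ∣ 2 := ⟨2 * q * c + q, by linarith⟩
    norm_num at h3

/-- the semidihedral group `⟨a, b | a ^ (2 ^ (n-1)) = b ^ 2 = 1, b a b⁻¹ = a ^ (2 ^ (n-2) - 1)⟩`,
as a presented group -/
abbrev SD (n : ℕ) : Type := PresentedGroup (rels (2 ^ (n - 1)) (2 ^ (n - 2) - 1))

/-- Every semidihedral group of order `2 ^ n`, `n ≥ 4`, has an R-sequencing. -/
theorem result (n : ℕ) (hn : 4 ≤ n) :
    ∃ (N : ℕ) (g : ℕ → SD n), IsRSequencing (SD n) N g := by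
  obtain ⟨t, rfl⟩ := Nat.exists_eq_add_of_le hn
  have h1 : 2 ^ (4 + t - 1) = 8 * 2 ^ t := by
    rw [show 4 + t - 1 = 3 + t by omega, pow_add]; norm_num
  have h2 : 2 ^ (4 + t - 2) = 4 * 2 ^ t := by
    rw [show 4 + t - 2 = 2 + t by omega, pow_add]; norm_num
  have h := main (2 ^ t) (by positivity)
  unfold SD
  rw [h1, h2]
  exact h

end Pool.Agent.Results.MP_d3366a_al.RSequencing
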